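import Pool.Agent.H11.UM.IV12
import Pool.Agent.H11.UM.IVE
import Pool.Agent.H13.UM.CNT
import Pool.Agent.H13.UM.SG
import Pool.Agent.H13.UM.SUM
import Pool.Agent.H15.UM.PB
import Pool.Agent.H15.UM.R1
import Pool.Agent.H15.UM.R3
import Pool.Agent.H15.UM.SYMP
import Pool.Agent.H17.UM.FK
import Pool.Agent.H19.UM.INA
import Pool.Agent.H19.UM.IP1
import Pool.Agent.H19.UM.IVU
import Pool.Agent.H2.UM.TSU
import Pool.Agent.H28.UM.IP2
import Pool.Agent.H28.UM.KTAB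
import Pool.Agent.H28.UM.LBA
import Pool.Agent.H28.UM.VA
import Pool.Agent.H29.UM.IVF
import Pool.Agent.H29.UM.ZX
import Pool.Agent.H37.UM.Final
import Pool.Agent.H37.UM.KK
import Pool.Agent.H5.UM.REC
import Pool.Agent.H59.UM.APX
import Pool.Agent.H59.UM.CX
import Pool.Agent.H59.UM.P1X
import Pool.Agent.H59.UM.P2X
import Pool.Agent.H65.UM.IZ
import Pool.Agent.H65.UM.LL1
import Pool.Agent.H65.UM.LL2
import Pool.Agent.H65.UM.LTAB
import Pool.Agent.H65.UM.SSB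
import Pool.Agent.H66.UM.M1
import Pool.Agent.H66.UM.M2
import Pool.Agent.H66.UM.M3
import Pool.Agent.H66.UM.M4
import Pool.Agent.H7.UM.CB
import Pool.Agent.H7.UM.STR
import Pool.Agent.H70.UM.APB
import Pool.Agent.H70.UM.DUB
import Pool.Agent.H70.UM.TB0
import Pool.Agent.H70.UM.TB2
import Pool.Agent.H70.UM.TB3
import Pool.Agent.H79.UM.III
import Pool.Agent.H79.UM.MAJ
import Pool.Agent.H79.UM.PACK
import Pool.Agent.H79.UM.STEP
import Pool.Agent.H85.UM.IVN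
import Pool.Agent.H85.UM.IVR
import Pool.Agent.H85.UM.IVT
import Pool.Agent.H87.UM.GEN
import Pool.Agent.H87.UM.R2
import Pool.Agent.H93.UM.MOA
import Pool.Agent.H93.UM.MOB
import Pool.Agent.H93.UM.OP
import Pool.Agent.H93.UM.PN
import Pool.Agent.H93.UM.UU
import Pool.Agent.H95.UM.FF
import Pool.Agent.H95.UM.TB1
import Pool.Agent.H95.UM.TU

/-!
# The even-indexed coefficients of the partition numerator are unimodal

`num (n, x)` is the numerator of the sum of `∏ (1 + x ^ i) ^ (- m_λ (i))` over the partitions `λ` of `n`,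
in the reduced form of Ballantine, Beck, Feigon and Maurischat.  For every `n ≥ 1` its even-indexed
coefficients are unimodal.
-/

set_option autoImplicit false

namespace Pool.Agent.Results.MP_a56223_co.EvenPartUnimodal

open Polynomial Finset

/-- `h_λ (x) = ∏_{i ≤ n} (1 + x ^ i) ^ (⌊n / i⌋ - m_λ (i))` for a partition `p = λ` of `n` -/
noncomputable def hPart (n : ℕ) (p : n.Partition) : ℤ[X] :=
  ∏ i ∈ Icc 1 n, (1 + X ^ i) ^ (n / i - p.parts.count i)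

/-- `f` is the numerator `num (n, x) = (∑ h_λ) / G`, where `G` is the monic greatest common divisor
of all `h_λ` in `ℤ[x]` -/
def IsNum (n : ℕ) (f : ℤ[X]) : Prop :=
  ∃ G : ℤ[X], G.Monic ∧ (∀ p : n.Partition, G ∣ hPart n p) ∧
    (∀ q : ℤ[X], (∀ p : n.Partition, q ∣ hPart n p) → q ∣ G) ∧
    G * f = ∑ p : n.Partition, hPart n p

/-- the sequence `c_0, c_2, c_4, ...` of the even-indexed coefficients of `f` (up to the degree of `f`)
is unimodal: it increases weakly up to the index `t` and decreases weakly from `t` on -/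
def EvenUnimodal (f : ℤ[X]) : Prop :=
  ∃ t : ℕ, (∀ i, i < t → f.coeff (2 * i) ≤ f.coeff (2 * (i + 1))) ∧
    ∀ i, t ≤ i → 2 * (i + 1) ≤ f.natDegree → f.coeff (2 * (i + 1)) ≤ f.coeff (2 * i)

open Pool.Agent.H37.UM in
lemma main  : ∀ n : ℕ, 1 ≤ n → (∃! f : ℤ[X], Pool.Agent.H37.UM.IsNum n f) ∧
    ∀ f : ℤ[X], Pool.Agent.H37.UM.IsNum n f → Pool.Agent.H37.UM.EvenUnimodal f := by
  have hGEN : GENStmt := Pool.Agent.H37.UM.GEN_thm
  have hAPB : APBStmt := Pool.Agent.H37.UM.APB_thm hGEN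
  have hINA : INAStmt := Pool.Agent.H37.UM.INA_thm
  have hIVN : IVNStmt := Pool.Agent.H37.UM.IVN_thm
  have hIVR : IVRStmt := Pool.Agent.H37.UM.IVR_thm
  have hIVT : IVTStmt := Pool.Agent.H37.UM.IVT_thm hIVR
  have hKTAB : KTabStmt ktab := Pool.Agent.H28.UM.KTAB.KTAB_thm
  have hLTAB : LTabStmt (l1tab ++ l2tab) := Pool.Agent.H37.UM.LTAB_thm
  have hMAJ : MAJStmt := Pool.Agent.H37.UM.MAJ_thm
  have hM3 : M3Stmt := Pool.Agent.H66.UM.M3_thm hMAJ hGEN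
  have hOP : OPStmt := Pool.Agent.H37.UM.OP_thm
  have hCNT : CNTStmt := Pool.Agent.H37.UM.CNT_thm hOP
  have hFF : FFStmt := Pool.Agent.H95.UM.FF_thm hOP
  have hLBA : LBAStmt := Pool.Agent.H28.UM.LBA.LBA_thm hOP
  have hPACK : PACKStmt := Pool.Agent.H37.UM.PACK_thm
  have hPN : PNStmt := Pool.Agent.H37.UM.PN_thm
  have hR1 : R1Stmt := Pool.Agent.H37.UM.R1_thm
  have hR2 : R2Stmt := Pool.Agent.H37.UM.R2_thm hR1
  have hR3 : R3Stmt := Pool.Agent.H37.UM.R3_thm hR1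
  have hREC : RECStmt := Pool.Agent.H5.UM.REC_thm hGEN
  have hIVE : IVEStmt := Pool.Agent.H37.UM.IVE_thm hREC hGEN
  have hIVU : IVUStmt := Pool.Agent.H37.UM.IVU_thm hREC hMAJ
  have hIV12 : IV12Stmt := Pool.Agent.H37.UM.IV12_thm hREC hGEN hIVT hIVU
  have hIVF : IVFStmt := Pool.Agent.H37.UM.IVF_thm hIVT hIVE hIVN hIVU hIV12
  have hM2 : M2Stmt := Pool.Agent.H66.UM.M2_thm hMAJ hPN hREC hGEN
  have hAPX : APXStmt := Pool.Agent.H37.UM.APX_thm hM2 hLBA hCNT hINA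
  have hM4 : M4Stmt := Pool.Agent.H66.UM.M4_thm hMAJ hREC hGEN
  have hLL1 : LL1Stmt := Pool.Agent.H37.UM.LL1_thm hLBA hM4 hLTAB
  have hSG : SGStmt := Pool.Agent.H37.UM.SG_thm hOP
  have hSSB : SSBStmt := Pool.Agent.H37.UM.SSB_thm hOP hSG
  have hIC : ICStmt := Pool.Agent.H37.UM.IC_thm hSSB
  have hIP1 : IP1Stmt := Pool.Agent.H37.UM.IP1_thm hSSB
  have hIP2 : IP2Stmt := Pool.Agent.H28.UM.IP2.IP2_thm hSSB
  have hIZ : IZStmt := Pool.Agent.H37.UM.IZ_thm hSSB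
  have hSTEP : STEPStmt := Pool.Agent.H37.UM.STEP_thm
  have hSUM : SUMStmt := Pool.Agent.H37.UM.SUM_thm
  have hSYMP : SYMPStmt := Pool.Agent.H37.UM.SYMP_thm hR1
  have hUU : UUStmt := Pool.Agent.H37.UM.UU_thm hOP hFF
  have hDUB : DUBStmt := Pool.Agent.H37.UM.DUB_thm hOP hUU
  have hFK : FKStmt := Pool.Agent.H37.UM.FK_thm hPACK hAPB hGEN hREC hUU hOP hFF
  have hIII : IIIStmt := Pool.Agent.H37.UM.III_thm hPACK hAPB hGEN hREC hPN hUU hOP hFF
  have hLL2 : LL2Stmt := Pool.Agent.H37.UM.LL2_thm hPACK hM4 hLTAB hOP hFF hUU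
  have hMOA : MOAStmt := Pool.Agent.H37.UM.MOA_thm hOP hFF hUU
  have hM1 : M1Stmt := Pool.Agent.H66.UM.M1_thm hMAJ hPN hREC hGEN hOP hMOA
  have hMOB : MOBStmt := Pool.Agent.H37.UM.MOB_thm hOP hFF hUU
  have hTB0 : TB0Stmt := Pool.Agent.H37.UM.TB0_thm hOP hFF hSUM hUU
  have hTB1 : TB1Stmt := Pool.Agent.H95.UM.TB1_thm hOP hFF hSUM hUU
  have hTB2 : TB2Stmt := Pool.Agent.H37.UM.TB2_thm hOP hFF hSUM hUU
  have hTB3 : TB3Stmt := Pool.Agent.H37.UM.TB3_thm hOP hFF hSUM hUU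
  have hTB : TBStmt := tb_of hTB0 hTB1 hTB2 hTB3
  have hSTR : STRStmt := Pool.Agent.H37.UM.STR_thm hTB hSUM hOP hFF hUU
  have hTSU : TSUStmt := Pool.Agent.H37.UM.TSU_thm hTB hSUM hUU
  have hKK : KKStmt := Pool.Agent.H37.UM.KK.KK_thm hM3 hKTAB hOP hUU hTSU
  have hPB : PBStmt := Pool.Agent.H37.UM.PB_thm hSTEP hSTR hTSU hMOA hUU
  have hVA : VAStmt := Pool.Agent.H28.UM.VA.VA_thm hMOA hOP hFF hUU
  have hCB : CBStmt := Pool.Agent.H37.UM.CB_thm hSTEP hSTR hTSU hMOA hMOB hVA hUU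
  have hP1X : P1XStmt := Pool.Agent.H37.UM.P1X_thm hM1 hPB hMOA hMOB hVA hDUB hIP1 hUU
  have hP2X : P2XStmt := Pool.Agent.H37.UM.P2X_thm hM1 hPB hMOA hMOB hVA hSG hDUB hIP2 hUU
  have hTU : TUStmt := Pool.Agent.H95.UM.TU_thm hMOA hMOB hVA
  have hCX : CXStmt := Pool.Agent.H37.UM.CX_thm hM1 hCB hMOA hTU hSG hVA hDUB hIC hUU
  have hZX : ZXStmt := Pool.Agent.H37.UM.ZX_thm hM1 hPB hMOA hMOB hVA hSG hTU hDUB hIZ hUU
  have hB : BStmt := b_of hP1X hP2X hZX hCX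
  have hIND : INDStmt := ind_of hREC hSYMP hUU hSUM hTB hKK hLL1 hLL2 hB hAPX hIII hFK hIVF
  have hEU : EUStmt := eu_of hSYMP hUU hTSU hFK hIND
  exact fin_of hSYMP hUU hR2 hR3 hEU

/-- For every `n ≥ 1` the numerator `num (n, x)` exists, is unique, and its even-indexed coefficients
are unimodal. -/
theorem result (n : ℕ) (hn : 1 ≤ n) :
    (∃! f : ℤ[X], IsNum n f) ∧ ∀ f : ℤ[X], IsNum n f → EvenUnimodal f :=
  main n hn

end Pool.Agent.Results.MP_a56223_co.EvenPartUnimodal
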